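import Pool.Agent.Helper10.CI.Chain

/-!
# CI (MP_26d9ad), one degree less: differentiation of the identity `∑ w_j ∂_j F_i = 0` on the line

`psi_der2`: if `psi (pdF a w i) = 0` then for every derivation `δ` of `Ω`
`psi (∑ w_j ∂_j (F_i)^δ) + psi (pdF a (δ w) i) + ∑_l psi (∂_l (pdF a w i)) (δ x_l X_0 + δ y_l r_β) = 0`,
where `(F_i)^δ = ∑_J δ (a_J) X^J`.
-/

set_option autoImplicit false

namespace Pool.Agent.Helper42.CI

open scoped BigOperators
open MvPolynomial
open Pool.Agent.Helper8.LG (Bdd form mon Ix)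
open Pool.Agent.Helper49.LN (cP mo hf pl)
open Pool.Agent.Helper6.QS (dv ev lf dt Par RatP)
open Pool.Agent.Helper10.CI

variable {Ω : Type*} [Field Ω] {N r : ℕ} {d : Fin r → ℕ} {a : Ix (Fin (N + 1)) d → Ω}

/-- the form `F_i` with the derivation `δ` applied to the coefficients -/
theorem Der2_F (δ : Derivation ℤ Ω Ω) (i : Fin r) :
    Chain_D δ (Fp a i) = ∑ J : Sym (Fin (N + 1)) (d i), δ (a ⟨i, J⟩) • mo Ω (J : Multiset (Fin (N + 1))) := by
  ext m
  rw [Chain_coeff, Fp, coeff_sum, coeff_sum, map_sum]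
  refine Finset.sum_congr rfl fun J _ => ?_
  rw [coeff_smul, coeff_smul, smul_eq_mul, smul_eq_mul, Pool.Agent.Helper49.LN.mo_eq,
    coeff_monomial]
  split_ifs
  · rw [mul_one, mul_one]
  · rw [mul_zero, mul_zero, map_zero]

theorem Der2_zero (δ : Derivation ℤ Ω Ω) :
    Chain_D δ (0 : MvPolynomial (Fin (N + 1)) Ω) = 0 := by
  ext m
  rw [Chain_coeff, coeff_zero, map_zero]

theorem Der2_sum (δ : Derivation ℤ Ω Ω) {ι : Type*} (s : Finset ι)
    (f : ι → MvPolynomial (Fin (N + 1)) Ω) :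
    Chain_D δ (∑ j ∈ s, f j) = ∑ j ∈ s, Chain_D δ (f j) := by
  ext m
  rw [Chain_coeff, coeff_sum, coeff_sum, map_sum]
  refine Finset.sum_congr rfl fun j _ => ?_
  rw [Chain_coeff]

theorem Der2_smul (δ : Derivation ℤ Ω Ω) (c : Ω) (f : MvPolynomial (Fin (N + 1)) Ω) :
    Chain_D δ (c • f) = δ c • f + c • Chain_D δ f := by
  ext m
  rw [Chain_coeff, coeff_add, coeff_smul, coeff_smul, coeff_smul, Chain_coeff, smul_eq_mul,
    smul_eq_mul, smul_eq_mul, Derivation.leibniz, smul_eq_mul, smul_eq_mul]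
  ring

theorem Der2_pderiv (δ : Derivation ℤ Ω Ω) (j : Fin (N + 1))
    (f : MvPolynomial (Fin (N + 1)) Ω) :
    Chain_D δ (pderiv j f) = pderiv j (Chain_D δ f) := by
  ext m
  rw [Chain_coeff, coeff_pderiv, coeff_pderiv, Chain_coeff, Derivation.leibniz, smul_eq_mul,
    smul_eq_mul]
  have h : δ ((m j : Ω) + 1) = 0 := by
    rw [map_add, Derivation.map_natCast, Derivation.map_one_eq_zero, add_zero]
  rw [h, mul_zero, zero_add, mul_comm]

theorem Der2_pdF (δ : Derivation ℤ Ω Ω) (w : Fin (N + 1) → Ω) (i : Fin r) :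
    Chain_D δ (pdF a w i) = pdF a (fun l => δ (w l)) i + ∑ j, w j • pderiv j (Chain_D δ (Fp a i)) := by
  rw [pdF, Der2_sum, pdF, ← Finset.sum_add_distrib]
  refine Finset.sum_congr rfl fun j _ => ?_
  rw [Der2_smul, Der2_pderiv]

/-- differentiation of `psi P` -/
theorem Der2_psi (x y : Fin (N + 1) → Ω) (hx : x 0 = 1) (hy : y 0 = 0) (β : Fin (N + 1))
    (hβ : y β = 1) (δ : Derivation ℤ Ω Ω) (P : MvPolynomial (Fin (N + 1)) Ω)
    (h : psi x y β P = 0) :
    psi x y β (Chain_D δ P) +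
      ∑ l, psi x y β (pderiv l P) * (δ (x l) • X 0 + δ (y l) • rl x β) = 0 := by
  have hβ0 : β ≠ 0 := by
    rintro rfl
    rw [hy] at hβ
    exact zero_ne_one hβ
  have hrh : Chain_rh x β (X β) = rl x β := by
    rw [Chain_rh, aeval_X, if_pos rfl]
  have hrh0 : Chain_rh x β (X 0) = X 0 := by
    rw [Chain_rh, aeval_X, if_neg (Ne.symm hβ0)]
  have h1 : Chain_ph x y β P = 0 := by
    rw [← Chain_th_psi x y β hβ0, h, map_zero]
  have hD1 : ∀ l : Fin (N + 1), Chain_D δ (X l : MvPolynomial (Fin (N + 1)) Ω) = 0 := by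
    intro l
    rw [X, Chain_monomial, Derivation.map_one_eq_zero, monomial_zero]
  have hDC : ∀ b : Ω, Chain_D δ (C b : MvPolynomial (Fin (N + 1)) Ω) = C (δ b) := by
    intro b
    rw [C_apply, Chain_monomial, ← C_apply]
  have h2 := Chain_rule (Chain_ph x y β) (Chain_D δ) (Chain_D δ) (Chain_add δ) (Chain_mul δ)
    (Chain_add δ) (fun f l => by rw [Chain_mul, hD1, mul_zero, add_zero])
    (fun b => by
      rw [hDC]
      simp only [Chain_ph, aeval_C, algebraMap_eq]
      exact hDC b) P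
  rw [h1, Der2_zero] at h2
  have h4 : ∀ l, Chain_D δ (Chain_ph x y β (X l)) = δ (x l) • X 0 + δ (y l) • X β := by
    intro l
    rw [Chain_ph, aeval_X, Chain_add, smul_eq_C_mul, smul_eq_C_mul, Chain_mul, Chain_mul, hD1, hD1,
      hDC, hDC, mul_zero, mul_zero, add_zero, add_zero, smul_eq_C_mul, smul_eq_C_mul]
  have h5 := congrArg (Chain_rh x β) h2
  rw [map_zero, map_add, map_sum, Chain_rh_ph x y β hβ0] at h5
  rw [h5]
  congr 1
  refine Finset.sum_congr rfl fun l _ => ?_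
  rw [map_mul, Chain_rh_ph x y β hβ0, h4, map_add, map_smul, map_smul, hrh, hrh0]

theorem psi_der2 (x y : Fin (N + 1) → Ω) (hx : x 0 = 1) (hy : y 0 = 0) (β : Fin (N + 1))
    (hβ : y β = 1) (i : Fin r) (w : Fin (N + 1) → Ω) (h : psi x y β (pdF a w i) = 0)
    (δ : Derivation ℤ Ω Ω) :
    psi x y β (∑ j, w j • pderiv j (∑ J : Sym (Fin (N + 1)) (d i),
        δ (a ⟨i, J⟩) • mo Ω (J : Multiset (Fin (N + 1))))) +
      psi x y β (pdF a (fun l => δ (w l)) i) +
      ∑ l, psi x y β (pderiv l (pdF a w i)) * (δ (x l) • X 0 + δ (y l) • rl x β) = 0 := by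
  have h1 := Der2_psi x y hx hy β hβ δ _ h
  rw [Der2_pdF, map_add, Der2_F] at h1
  rw [← h1]
  ring

/-- the derivatives of `P` in the directions of the line vanish on the line if `P` does -/
theorem Der2_tan (x y : Fin (N + 1) → Ω) (hy : y 0 = 0) (β : Fin (N + 1))
    (hβ : y β = 1) (P : MvPolynomial (Fin (N + 1)) Ω) (h : psi x y β P = 0) :
    (∑ l, x l • psi x y β (pderiv l P) = 0) ∧ (∑ l, y l • psi x y β (pderiv l P) = 0) := by
  have hβ0 : β ≠ 0 := by
    rintro rfl
    rw [hy] at hβ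
    exact zero_ne_one hβ
  have h1 : Chain_ph x y β P = 0 := by
    rw [← Chain_th_psi x y β hβ0, h, map_zero]
  have key : ∀ (k : Fin (N + 1)) (v : Fin (N + 1) → Ω),
      (∀ l, pderiv k (Chain_ph x y β (X l)) = C (v l)) →
      ∑ l, v l • psi x y β (pderiv l P) = 0 := by
    intro k v hv
    have h2 := Chain_rule (Chain_ph x y β) (fun f => pderiv k f) (fun _ => 0)
      (fun f g => map_add _ f g)
      (fun f g => by
        simp only [Derivation.leibniz, smul_eq_mul]
        ring) (fun f g => by simp) (fun f l => by simp)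
      (fun c => by simp [Chain_ph]) P
    simp only [h1, map_zero, zero_add, hv] at h2
    have h3 := congrArg (Chain_rh x β) h2
    rw [map_zero, map_sum] at h3
    rw [h3]
    refine Finset.sum_congr rfl fun l _ => ?_
    rw [map_mul, Chain_rh_ph x y β hβ0, smul_eq_C_mul, mul_comm]
    congr 1
    rw [Chain_rh, aeval_C, algebraMap_eq]
  constructor
  · refine key 0 x fun l => ?_
    rw [Chain_ph, aeval_X, map_add, smul_eq_C_mul, smul_eq_C_mul, pderiv_C_mul, pderiv_C_mul,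
      pderiv_X_self, pderiv_X_of_ne hβ0, mul_one, mul_zero, add_zero]
  · refine key β y fun l => ?_
    rw [Chain_ph, aeval_X, map_add, smul_eq_C_mul, smul_eq_C_mul, pderiv_C_mul, pderiv_C_mul,
      pderiv_X_self, pderiv_X_of_ne (Ne.symm hβ0), mul_one, mul_zero, zero_add]

end Pool.Agent.Helper42.CI
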